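import Pool.Agent.MP_77bbd4_lc.NP.Prod

universe u

open Pool.Agent.MP_77bbd4_lc

namespace Pool.Agent.Results.MP_77bbd4_lc.NonProductive

/-- For every regular `μ`, every `κ` and every index set with at least two elements there is a
family of `<μ`-directed closed, strongly `<κ`-distributive posets such that every proper
subproduct (full support) is strongly `<κ`-distributive, while the full product has `μ` open
dense sets with empty intersection. -/
theorem result (μ κ : Cardinal.{u}) (hμ : μ.IsRegular) (I : Type u) [Nontrivial I] :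
    ∃ (P : I → Type u) (_ : ∀ i, PartialOrder (P i)) (_ : ∀ i, OrderTop (P i)),
      (∀ i, DirClosed (P i) μ ∧ StronglyDistributive (P i) κ) ∧
      (∀ J : Set I, J ≠ Set.univ → StronglyDistributive (∀ i : J, P i) κ) ∧
      ∃ D : Ordinal.{u} → Set (∀ i, P i), (∀ α < μ.ord, IsOpenDense (D α)) ∧
        ∀ z, ∃ α < μ.ord, z ∉ D α := by
  obtain ⟨P, i1, i2, h, h'⟩ := NP.main μ κ hμ I
  exact ⟨P, i1, i2, fun i => ⟨(h i).1, (h i).2.1⟩, h'⟩

end Pool.Agent.Results.MP_77bbd4_lc.NonProductive
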