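import Mathlib
import Pool.Agent.MP_77bbd4_lc.Distrib

set_option autoImplicit false

universe u

open Pool.Agent.MP_77bbd4_lc

namespace Pool.Agent.Results.MP_77bbd4_lc.Undetermined

/-- For every uncountable cardinal `κ` there is a poset with a largest element that is strongly
`<κ`-distributive and not `κ`-strategically closed (not even `(ω+1)`-strategically closed). -/
theorem result (κ : Cardinal.{u}) (hκ : Cardinal.aleph0 < κ) :
    ∃ (P : Type u) (_ : PartialOrder P) (_ : OrderTop P),
      StronglyDistributive P κ ∧ ¬ ComWins P κ.ord ∧ ¬ ComWins P (Ordinal.omega0 + 1) := by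
  obtain ⟨P, i1, i2, h1, h2⟩ := main κ
  refine ⟨P, i1, i2, h1, h2 _ ?_, h2 _ (lt_add_one _)⟩
  rw [← Cardinal.ord_aleph0]
  exact Cardinal.ord_lt_ord.mpr hκ

end Pool.Agent.Results.MP_77bbd4_lc.Undetermined
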